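import Pool.Agent.W2helper56.PK.Stm

/-!
# The attack in the real world
-/

set_option autoImplicit false

namespace Pool.Agent.W2helper36.PK

open Pool.Agent.NPC Pool.Agent.H620R2.Gauge Pool.Agent.H622R2 Pool.Agent.W2helper56.PK MeasureTheory

/-! ### Probabilities -/

open Classical in
theorem prob_sum {α : Type} [Fintype α] (P : α → Prop) :
    prob P = (∑ a, if P a then (1 : ℝ) else 0) / Fintype.card α := by
  rw [prob, Finset.sum_boole, Nat.card_eq_fintype_card, Fintype.card_subtype]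

theorem prob_mono {α : Type} [Fintype α] {P Q : α → Prop} (h : ∀ a, P a → Q a) :
    prob P ≤ prob Q := by
  classical
  rw [prob_sum, prob_sum]
  gcongr with a _
  split_ifs with h1 h2 h2
  · exact le_rfl
  · exact absurd (h a h1) h2
  · exact zero_le_one
  · exact le_rfl

theorem prob_or {α : Type} [Fintype α] {P Q R : α → Prop} (h : ∀ a, P a → Q a ∨ R a) :
    prob P ≤ prob Q + prob R := by
  classical
  rw [prob_sum, prob_sum, prob_sum, ← add_div, ← Finset.sum_add_distrib]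
  gcongr with a _
  split_ifs with h1 h2 h3 h3 h2 h3 h3
  · norm_num
  · norm_num
  · norm_num
  · rcases h a h1 with h4 | h4
    · exact absurd h4 h2
    · exact absurd h4 h3
  all_goals norm_num

theorem prob_equiv {α β : Type} [Fintype α] [Fintype β] (e : α ≃ β) (P : β → Prop) :
    (prob fun a => P (e a)) = prob P := by
  classical
  rw [prob_sum, prob_sum, Fintype.card_congr e]
  congr 1
  exact Fintype.sum_equiv e _ _ fun _ => rfl

theorem prob_fst {α β : Type} [Fintype α] [Fintype β] [Nonempty β] (P : α → Prop) :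
    (prob fun s : α × β => P s.1) = prob P := by
  classical
  rw [prob_sum, prob_sum, Fintype.card_prod, Fintype.sum_prod_type]
  rw [Finset.sum_congr rfl fun (x : α) _ => show (∑ y : β, if P (x, y).1 then (1 : ℝ) else 0) =
    (Fintype.card β : ℝ) * (if P x then 1 else 0) by by_cases h : P x <;> simp [h],
    ← Finset.mul_sum, Nat.cast_mul, mul_comm (Fintype.card β : ℝ)]
  have : (Fintype.card β : ℝ) ≠ 0 := by exact_mod_cast Fintype.card_ne_zero
  rw [mul_div_mul_right _ _ this]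

theorem prob_prod_le {α β : Type} [Fintype α] [Fintype β] (P : α → β → Prop) (c : ℝ) (hc : 0 ≤ c)
    (h : ∀ y, (prob fun x => P x y) ≤ c) : (prob fun s : α × β => P s.1 s.2) ≤ c := by
  classical
  rw [prob_sum, Fintype.card_prod, Fintype.sum_prod_type_right]
  rcases isEmpty_or_nonempty α with hα | hα
  · simpa using hc
  rcases isEmpty_or_nonempty β with hβ | hβ
  · simpa using hc
  have h1 : (0 : ℝ) < Fintype.card α := by exact_mod_cast Fintype.card_pos
  have h2 : (0 : ℝ) < Fintype.card β := by exact_mod_cast Fintype.card_pos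
  rw [Nat.cast_mul, div_le_iff₀ (by positivity)]
  calc (∑ y, ∑ x, if P x y then (1 : ℝ) else 0) ≤ ∑ _y : β, c * Fintype.card α := by
        refine Finset.sum_le_sum fun y _ => ?_
        have := h y
        rw [prob_sum, div_le_iff₀ h1] at this
        exact this
    _ = c * (Fintype.card α * Fintype.card β) := by
        rw [Finset.sum_const, Finset.card_univ, nsmul_eq_mul]
        ring

/-! ### Trees -/

theorem run_all {β : Type} {m : ℕ} {O O' : Oracle} {D : DT (List Bool) β}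
    (hD : D.All fun z => z.length < m) (h : ∀ z : List Bool, z.length < m → O z = O' z) :
    D.run O = D.run O' :=
  (DT.run_congr fun z hz => (h z (hD.qs O' z hz))).1

/-- cut at long inputs -/
def ctree (M : Alg) (L : ℕ) (x : List Bool) : DT (List Bool) (List Bool) :=
  if x.length ≤ L then tree M x else DT.ret []

theorem ctree_le (M : Alg) (L : ℕ) (x : List Bool) : (ctree M L x).Le (M.p.eval L) := by
  unfold ctree
  split_ifs with h
  · exact (tree_le M x).mono (eval_mono _ h)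
  · exact DT.le_ret _ _

theorem ctree_all (M : Alg) (b : Polynomial ℕ)
    (hb : ∀ x : List Bool, (tree M x).All fun z => z.length ≤ b.eval x.length) (L : ℕ)
    (x : List Bool) : (ctree M L x).All fun z => z.length ≤ b.eval L := by
  unfold ctree
  split_ifs with h
  · exact (hb x).mono fun z hz => hz.trans (eval_mono _ h)
  · trivial

theorem ctree_run (M : Alg) {L : ℕ} {x : List Bool} (O : Oracle) (h : x.length ≤ L) :
    (ctree M L x).run O = ac M O x := by
  unfold ctree
  rw [if_pos h, tree_run]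

/-! ### The scheme -/

/-- what a question is about -/
def gg (t m' : ℕ) (e tb : Oracle) (z : List Bool) : Pos t m' ⊕ Bool :=
  if h : z.length < t then Sum.inr (tb z)
  else if h2 : z.length < m' ∧ z.head? = some false then Sum.inl ⟨z, not_lt.1 h, h2.1⟩
  else if z.take 2 = [true, false] then Sum.inr (e (z.drop 2)) else Sum.inr false

/-- the finite scheme -/
def Sc (σ : AS) (n t m' : ℕ) (e : Oracle) (l1 l3 l4 : ℕ) (tb : Oracle) :
    Sch (Pos t m') (Coins (σ.p.eval n) × Coins (σ.p.eval n)) (Coins (σ.p.eval n)) where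
  g := gg t m' e tb
  gen a := (ctree σ.Pk l1 (pairBits (List.ofFn a.1) (un n))).bind fun pk =>
    (ctree σ.Sk l1 (pairBits (List.ofFn a.1) (un n))).bind fun sk =>
      DT.ret (pk, pairBits (List.ofFn a.2) sk)
  enc v k b := ctree σ.Enc l3 (pairBits (List.ofFn v) (pairBits k [b]))
  dec k c := (ctree σ.Dec l4 (pairBits (unpair k).1 (pairBits (unpair k).2 c))).bind fun r =>
    DT.ret (decide (r = [true]))

/-- the table of the short strings -/
def tab (t : ℕ) (O : Oracle) : Oracle := fun z => if z.length < t then O z else false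

theorem Ok_ext {t m' : ℕ} (E Λ : Oracle) (ω : Pos t m' → Bool) (z : List Bool)
    (hz : z.length < t) : Ok E (ext Λ ω) z = Ok E Λ z :=
  Ok_congr (fun _ _ => rfl) (fun u hu => by
    unfold ext
    rw [dif_neg (by omega)]) z hz

theorem tab_ext {t m' : ℕ} (E Λ : Oracle) (ω : Pos t m' → Bool) :
    tab t (Ok E (ext Λ ω)) = tab t (Ok E Λ) := by
  funext z
  unfold tab
  split_ifs with h
  · exact Ok_ext E Λ ω z h
  · rfl

theorem orc_eq {σ : AS} {n t m' : ℕ} {e E : Oracle} {l1 l3 l4 : ℕ} (Λ : Oracle)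
    (hE : ∀ u : List Bool, u.length < m' → E u = e u) (ω : Pos t m' → Bool) (z : List Bool)
    (hz : z.length < m') :
    (Sc σ n t m' e l1 l3 l4 (tab t (Ok E Λ))).orc ω z = blind t (Ok E (ext Λ ω)) z := by
  change Sum.elim ω id (gg t m' e (tab t (Ok E Λ)) z) = _
  unfold gg blind
  by_cases h : z.length < t
  · rw [dif_pos h, if_neg (by omega), Ok_ext E Λ ω z h]
    unfold tab
    simp [h]
  rw [dif_neg h]
  rcases z with _ | ⟨c, z⟩
  · simp [Ok, join]
  cases c with
  | false =>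
    rw [dif_pos ⟨hz, rfl⟩, if_neg (by simp), Ok_false]
    unfold ext
    rw [dif_pos ⟨not_lt.1 h, hz⟩]
    rfl
  | true =>
    rw [dif_neg (by simp)]
    rcases z with _ | ⟨c, z⟩
    · simp [Ok, join]
    cases c with
    | false =>
      rw [if_pos (by simp), if_neg (by simp), Ok_guide]
      simp only [List.drop_succ_cons, List.drop_zero, Sum.elim_inr, id]
      refine (hE z ?_).symm
      simp only [List.length_cons] at hz
      omega
    | true =>
      rw [if_neg (by simp), if_pos ⟨not_lt.1 h, by simp⟩]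
      rfl

/-! ### The two experiments -/

/-- key generation, encryption, attack -/
def ex1 (σ : AS) (n l1 l3 : ℕ) (G : Att Bool) (b : Bool) (u v : Coins (σ.p.eval n)) :
    DT (List Bool) Bool :=
  (ctree σ.Pk l1 (pairBits (List.ofFn u) (un n))).bind fun pk =>
    (ctree σ.Enc l3 (pairBits (List.ofFn v) (pairBits pk [b]))).bind fun c => G pk c

/-- key generation, encryption, decryption -/
def ex2 (σ : AS) (n l1 l3 l4 : ℕ) (b : Bool) (u v w : Coins (σ.p.eval n)) :
    DT (List Bool) (List Bool) :=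
  (ctree σ.Pk l1 (pairBits (List.ofFn u) (un n))).bind fun pk =>
    (ctree σ.Sk l1 (pairBits (List.ofFn u) (un n))).bind fun sk =>
      (ctree σ.Enc l3 (pairBits (List.ofFn v) (pairBits pk [b]))).bind fun c =>
        ctree σ.Dec l4 (pairBits (List.ofFn w) (pairBits sk c))

theorem p_att (hit : P_it) (hhyb : P_hyb) (htab : P_tab) : P_att := by
  intro σ
  obtain ⟨bP, hbP⟩ := ac_length σ.Pk
  obtain ⟨bS, hbS⟩ := ac_length σ.Sk
  obtain ⟨bE, hbE⟩ := ac_length σ.Enc
  obtain ⟨aP, haP⟩ := tree_all σ.Pk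
  obtain ⟨aS, haS⟩ := tree_all σ.Sk
  obtain ⟨aE, haE⟩ := tree_all σ.Enc
  obtain ⟨aD, haD⟩ := tree_all σ.Dec
  -- the lengths
  let L1 : Polynomial ℕ := 2 * σ.p + 1 + Polynomial.X
  let L3 : Polynomial ℕ := 2 * σ.p + 1 + (2 * bP.comp L1 + 2)
  let L4 : Polynomial ℕ := 2 * σ.p + 1 + (2 * bS.comp L1 + 1 + bE.comp L3)
  have e1 : ∀ n, L1.eval n = 2 * σ.p.eval n + 1 + n := fun n => by simp [L1]
  have e3 : ∀ n, L3.eval n = 2 * σ.p.eval n + 1 + (2 * bP.eval (L1.eval n) + 2) := fun n => by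
    simp [L3, Polynomial.eval_comp]
  have e4 : ∀ n, L4.eval n = 2 * σ.p.eval n + 1 +
      (2 * bS.eval (L1.eval n) + 1 + bE.eval (L3.eval n)) := fun n => by
    simp [L4, Polynomial.eval_comp]
  refine ⟨σ.Pk.p.comp L1 + σ.Sk.p.comp L1 + σ.Enc.p.comp L3 + σ.Dec.p.comp L4,
    aP.comp L1 + aS.comp L1 + aE.comp L3 + aD.comp L4 + 1, ?_⟩
  intro n t k m' e hk hm htm
  set q : ℕ := (σ.Pk.p.comp L1 + σ.Sk.p.comp L1 + σ.Enc.p.comp L3 + σ.Dec.p.comp L4).eval n with hq
  have hq' : q = σ.Pk.p.eval (L1.eval n) + σ.Sk.p.eval (L1.eval n) + σ.Enc.p.eval (L3.eval n) +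
      σ.Dec.p.eval (L4.eval n) := by
    rw [hq]; simp [Polynomial.eval_comp]
  have hm' : aP.eval (L1.eval n) + aS.eval (L1.eval n) + aE.eval (L3.eval n) +
      aD.eval (L4.eval n) + 1 ≤ m' := by
    refine le_trans (le_of_eq ?_) hm
    simp [Polynomial.eval_comp]
  clear_value q L1 L3 L4
  set l1 := L1.eval n with hl1
  set l3 := L3.eval n with hl3
  set l4 := L4.eval n with hl4
  have f1 := e1 n
  have f3 := e3 n
  have f4 := e4 n
  rw [← hl1] at f1 f3 f4
  rw [← hl3] at f3 f4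
  rw [← hl4] at f4
  -- the trees
  have tP : ∀ x, (ctree σ.Pk l1 x).Le (σ.Pk.p.eval l1) := ctree_le _ _
  have tS : ∀ x, (ctree σ.Sk l1 x).Le (σ.Sk.p.eval l1) := ctree_le _ _
  have tE : ∀ x, (ctree σ.Enc l3 x).Le (σ.Enc.p.eval l3) := ctree_le _ _
  have tD : ∀ x, (ctree σ.Dec l4 x).Le (σ.Dec.p.eval l4) := ctree_le _ _
  have uP : ∀ x, (ctree σ.Pk l1 x).All fun z => z.length < m' := fun x =>
    (ctree_all _ _ haP _ x).mono fun z hz => by omega
  have uS : ∀ x, (ctree σ.Sk l1 x).All fun z => z.length < m' := fun x =>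
    (ctree_all _ _ haS _ x).mono fun z hz => by omega
  have uE : ∀ x, (ctree σ.Enc l3 x).All fun z => z.length < m' := fun x =>
    (ctree_all _ _ haE _ x).mono fun z hz => by omega
  have uD : ∀ x, (ctree σ.Dec l4 x).All fun z => z.length < m' := fun x =>
    (ctree_all _ _ haD _ x).mono fun z hz => by omega
  -- the finite schemes
  have hBd : ∀ tb : Oracle, (Sc σ n t m' e l1 l3 l4 tb).Bd q (fun z => z.length < m') := by
    intro tb
    refine ⟨fun a => ?_, fun v k b => ?_, fun k c => ?_, fun a => ?_, fun v k b => ?_,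
      fun k c => ?_⟩
    · refine (DT.le_bind (m := σ.Sk.p.eval l1) (fun _ => DT.le_bind (m := 0)
        (fun _ => DT.le_ret _ _) (tS _)) (tP _)).mono ?_
      omega
    · exact (tE _).mono (by omega)
    · exact (DT.le_bind (m := 0) (fun _ => DT.le_ret _ _) (tD _)).mono (by omega)
    · exact DT.all_bind (fun _ => DT.all_bind (fun _ => DT.all_ret _ _) (uS _)) (uP _)
    · exact uE _
    · exact DT.all_bind (fun _ => DT.all_ret _ _) (uD _)
  choose G hG1 hG2 using fun tb : Oracle => hit (Pos t m') (Coins (σ.p.eval n) × Coins (σ.p.eval n))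
    (Coins (σ.p.eval n)) (Sc σ n t m' e l1 l3 l4 tb) q k (fun z => z.length < m') hk (hBd tb)
  obtain ⟨D, hD1, hD2, hD3⟩ := htab t
  refine ⟨fun pk c => D.bind fun tb => G tb pk c, fun pk c => ⟨?_, ?_⟩, ?_⟩
  · exact DT.le_bind (fun tb => (hG1 tb pk c).1) hD1
  · exact DT.all_bind (fun tb => (hG1 tb pk c).2) (hD2.mono fun z hz => by omega)
  intro Λ E hE
  -- the values in the real world
  have lf : ∀ u : Coins (σ.p.eval n), (List.ofFn u).length = σ.p.eval n := fun u =>
    List.length_ofFn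
  have i1 : ∀ u : Coins (σ.p.eval n), (pairBits (List.ofFn u) (un n)).length ≤ l1 := fun u => by
    rw [length_pairBits, lf, List.length_replicate]
    omega
  have i3 : ∀ (O : Oracle) (u v : Coins (σ.p.eval n)) (b : Bool),
      (pairBits (List.ofFn v) (pairBits (ac σ.Pk O (pairBits (List.ofFn u) (un n))) [b])).length ≤
        l3 := fun O u v b => by
    rw [length_pairBits, lf, length_pairBits, List.length_singleton]
    have := (hbP O (pairBits (List.ofFn u) (un n))).trans (eval_mono _ (i1 u))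
    omega
  have i4 : ∀ (O : Oracle) (u v w : Coins (σ.p.eval n)) (b : Bool),
      (pairBits (List.ofFn w) (pairBits (ac σ.Sk O (pairBits (List.ofFn u) (un n)))
        (ac σ.Enc O (pairBits (List.ofFn v)
          (pairBits (ac σ.Pk O (pairBits (List.ofFn u) (un n))) [b]))))).length ≤ l4 :=
    fun O u v w b => by
      rw [length_pairBits, lf, length_pairBits]
      have h1 := (hbS O (pairBits (List.ofFn u) (un n))).trans (eval_mono _ (i1 u))
      have h2 := (hbE O _).trans (eval_mono _ (i3 O u v b))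
      omega
  set tb := tab t (Ok E Λ) with htb
  have r1 : ∀ (O : Oracle) (H : Att Bool) (b : Bool) (u v : Coins (σ.p.eval n)),
      (ex1 σ n l1 l3 H b u v).run O = (H ((σ.sch O).pk n (List.ofFn u))
        ((σ.sch O).ct n (List.ofFn u) (List.ofFn v) b)).run O := by
    intro O H b u v
    unfold ex1
    rw [DT.run_bind, DT.run_bind, ctree_run _ _ (i1 u), ctree_run _ _ (i3 O u v b)]
    rfl
  have r2 : ∀ (O : Oracle) (b : Bool) (u v w : Coins (σ.p.eval n)),
      (ex2 σ n l1 l3 l4 b u v w).run O =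
        (σ.sch O).de n (List.ofFn u) (List.ofFn v) (List.ofFn w) b := by
    intro O b u v w
    unfold ex2
    rw [DT.run_bind, DT.run_bind, DT.run_bind, ctree_run _ _ (i1 u), ctree_run _ _ (i1 u),
      ctree_run _ _ (i3 O u v b), ctree_run _ _ (i4 O u v w b)]
    rfl
  have rD : ∀ ω : Pos t m' → Bool, D.run (Ok E (ext Λ ω)) = tb := by
    intro ω
    rw [hD3, htb, ← tab_ext E Λ ω]
    rfl
  -- the trees of the experiments
  have x1 : ∀ (b : Bool) (u v : Coins (σ.p.eval n)),
      (ex1 σ n l1 l3 (G tb) b u v).Le (5 * k * q) := by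
    intro b u v
    refine (DT.le_bind (fun _ => DT.le_bind (fun _ => (hG1 tb _ _).1) (tE _)) (tP _)).mono ?_
    nlinarith [Nat.mul_le_mul_right q hk]
  have x2 : ∀ (b : Bool) (u v w : Coins (σ.p.eval n)),
      (ex2 σ n l1 l3 l4 b u v w).Le (3 * k * q) := by
    intro b u v w
    refine (DT.le_bind (fun _ => DT.le_bind (fun _ => DT.le_bind (fun _ => tD _) (tE _)) (tS _))
      (tP _)).mono ?_
    nlinarith [Nat.mul_le_mul_right q hk]
  have y1 : ∀ (b : Bool) (u v : Coins (σ.p.eval n)),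
      (ex1 σ n l1 l3 (G tb) b u v).All fun z => z.length < m' := fun b u v =>
    DT.all_bind (fun _ => DT.all_bind (fun _ => (hG1 tb _ _).2) (uE _)) (uP _)
  have y2 : ∀ (b : Bool) (u v w : Coins (σ.p.eval n)),
      (ex2 σ n l1 l3 l4 b u v w).All fun z => z.length < m' := fun b u v w =>
    DT.all_bind (fun _ => DT.all_bind (fun _ => DT.all_bind (fun _ => uD _) (uE _)) (uS _)) (uP _)
  -- from the real world to the blind world
  have z1 := prob_prod_le (β := Bool × Coins (σ.p.eval n) × Coins (σ.p.eval n))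
    (fun (ω : Pos t m' → Bool) y => (ex1 σ n l1 l3 (G tb) y.1 y.2.1 y.2.2).run (Ok E (ext Λ ω)) ≠
      (ex1 σ n l1 l3 (G tb) y.1 y.2.1 y.2.2).run (blind t (Ok E (ext Λ ω))))
    (((5 * k * q : ℕ) : ℝ) / 2 ^ ((t - 4) / 3)) (by positivity)
    (fun y => hhyb E Λ t t m' (5 * k * q) Bool _ le_rfl (x1 _ _ _) (y1 _ _ _))
  have z2 := prob_prod_le
    (β := Bool × Coins (σ.p.eval n) × Coins (σ.p.eval n) × Coins (σ.p.eval n))
    (fun (ω : Pos t m' → Bool) y =>
      (ex2 σ n l1 l3 l4 y.1 y.2.1 y.2.2.1 y.2.2.2).run (Ok E (ext Λ ω)) ≠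
      (ex2 σ n l1 l3 l4 y.1 y.2.1 y.2.2.1 y.2.2.2).run (blind t (Ok E (ext Λ ω))))
    (((3 * k * q : ℕ) : ℝ) / 2 ^ ((t - 4) / 3)) (by positivity)
    (fun y => hhyb E Λ t t m' (3 * k * q) (List Bool) _ le_rfl (x2 _ _ _ _) (y2 _ _ _ _))
  set S := Sc σ n t m' e l1 l3 l4 tb with hS
  have hor : ∀ (ω : Pos t m' → Bool) (z : List Bool), z.length < m' →
      S.orc ω z = blind t (Ok E (ext Λ ω)) z := fun ω z hz => orc_eq Λ hE ω z hz
  -- the blind world and the finite scheme
  have g1 : ∀ (u w v : Coins (σ.p.eval n)) (ω : Pos t m' → Bool) (b : Bool),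
      S.WrongG (G tb) ((u, w), ω, b, v) ↔
        (ex1 σ n l1 l3 (G tb) b u v).run (blind t (Ok E (ext Λ ω))) ≠ b := by
    intro u w v ω b
    rw [← run_all (y1 b u v) (hor ω)]
    unfold Sch.WrongG Sch.ct Sch.pk ex1
    simp only [hS, Sc, DT.run_bind, DT.run_ret]
  have g2 : ∀ (u w v : Coins (σ.p.eval n)) (ω : Pos t m' → Bool) (b : Bool),
      S.Wrong ((u, w), ω, b, v) →
        (ex2 σ n l1 l3 l4 b u v w).run (blind t (Ok E (ext Λ ω))) ≠ [b] := by
    intro u w v ω b
    rw [← run_all (y2 b u v w) (hor ω)]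
    unfold Sch.Wrong Sch.ct Sch.pk Sch.sk ex2
    simp only [hS, Sc, DT.run_bind, DT.run_ret, unpair_pairBits]
    intro h1 h2
    rw [h2] at h1
    cases b <;> simp at h1
  let E1 : S.Smp ≃ ((Pos t m' → Bool) × Bool × Coins (σ.p.eval n) × Coins (σ.p.eval n)) ×
      Coins (σ.p.eval n) :=
    { toFun := fun s => ((s.2.1, s.2.2.1, s.1.1, s.2.2.2), s.1.2)
      invFun := fun s => ((s.1.2.2.1, s.2), s.1.1, s.1.2.1, s.1.2.2.2)
      left_inv := fun _ => rfl
      right_inv := fun _ => rfl }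
  let E2 : S.Smp ≃ (Pos t m' → Bool) × Bool × Coins (σ.p.eval n) × Coins (σ.p.eval n) ×
      Coins (σ.p.eval n) :=
    { toFun := fun s => (s.2.1, s.2.2.1, s.1.1, s.2.2.2, s.1.2)
      invFun := fun s => ((s.2.2.1, s.2.2.2.2), s.1, s.2.1, s.2.2.2.1)
      left_inv := fun _ => rfl
      right_inv := fun _ => rfl }
  have w1 : (prob fun s : (Pos t m' → Bool) × Bool × Coins (σ.p.eval n) × Coins (σ.p.eval n) =>
      (ex1 σ n l1 l3 (G tb) s.2.1 s.2.2.1 s.2.2.2).run (blind t (Ok E (ext Λ s.1))) ≠ s.2.1) =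
      prob fun s : S.Smp => S.WrongG (G tb) s := by
    rw [← prob_fst (β := Coins (σ.p.eval n)), ← prob_equiv E1]
    congr 1
    funext s
    exact propext (g1 s.1.1 s.1.2 s.2.2.2 s.2.1 s.2.2.1).symm
  have w2 : (prob fun s : S.Smp => S.Wrong s) ≤
      prob fun s : (Pos t m' → Bool) × Bool × Coins (σ.p.eval n) × Coins (σ.p.eval n) ×
          Coins (σ.p.eval n) => (ex2 σ n l1 l3 l4 s.2.1 s.2.2.1 s.2.2.2.1 s.2.2.2.2).run
            (blind t (Ok E (ext Λ s.1))) ≠ [s.2.1] := by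
    rw [← prob_equiv E2]
    exact prob_mono fun s => g2 s.1.1 s.1.2 s.2.2.2 s.2.1 s.2.2.1
  have w3 : (prob fun s : S.Smp => S.WrongG (G tb) s) ≤ (prob fun s : S.Smp => S.Wrong s) +
      3 * (q : ℝ) / k := by
    have h := hG2 tb
    have hk' : (0 : ℝ) < k := by exact_mod_cast hk
    have hN : (0 : ℝ) < Nat.card S.Smp := by exact_mod_cast Nat.card_pos
    have h' : (k : ℝ) * (Nat.card {t : S.Smp // S.WrongG (G tb) t} : ℝ) ≤
        k * (Nat.card {t : S.Smp // S.Wrong t} : ℝ) + 3 * q * (Nat.card S.Smp : ℝ) := by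
      exact_mod_cast h
    unfold prob
    rw [← Nat.card_eq_fintype_card, div_add_div _ _ hN.ne' hk'.ne', div_le_div_iff₀ hN (by positivity)]
    nlinarith
  have w4 : (prob fun s : (Pos t m' → Bool) × Bool × Coins (σ.p.eval n) ×
      Coins (σ.p.eval n) =>
        (D.bind fun tb => G tb ((σ.sch (Ok E (ext Λ s.1))).pk n (List.ofFn s.2.2.1))
          ((σ.sch (Ok E (ext Λ s.1))).ct n (List.ofFn s.2.2.1) (List.ofFn s.2.2.2) s.2.1)).run
          (Ok E (ext Λ s.1)) ≠ s.2.1) ≤
      (prob fun s : (Pos t m' → Bool) × Bool × Coins (σ.p.eval n) × Coins (σ.p.eval n) =>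
      (ex1 σ n l1 l3 (G tb) s.2.1 s.2.2.1 s.2.2.2).run (blind t (Ok E (ext Λ s.1))) ≠ s.2.1) +
      ((5 * k * q : ℕ) : ℝ) / 2 ^ ((t - 4) / 3) := by
    refine le_trans (prob_or fun s hs => ?_) (add_le_add_right z1 _)
    rw [DT.run_bind, rD, ← r1] at hs
    by_cases h : (ex1 σ n l1 l3 (G tb) s.2.1 s.2.2.1 s.2.2.2).run (Ok E (ext Λ s.1)) =
      (ex1 σ n l1 l3 (G tb) s.2.1 s.2.2.1 s.2.2.2).run (blind t (Ok E (ext Λ s.1)))
    · exact Or.inl (h ▸ hs)
    · exact Or.inr h
  have w5 : (prob fun s : (Pos t m' → Bool) × Bool × Coins (σ.p.eval n) × Coins (σ.p.eval n) ×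
          Coins (σ.p.eval n) => (ex2 σ n l1 l3 l4 s.2.1 s.2.2.1 s.2.2.2.1 s.2.2.2.2).run
            (blind t (Ok E (ext Λ s.1))) ≠ [s.2.1]) ≤
      (prob fun s : (Pos t m' → Bool) × Bool × Coins (σ.p.eval n) × Coins (σ.p.eval n) ×
          Coins (σ.p.eval n) => (σ.sch (Ok E (ext Λ s.1))).de n (List.ofFn s.2.2.1)
            (List.ofFn s.2.2.2.1) (List.ofFn s.2.2.2.2) s.2.1 ≠ [s.2.1]) +
      ((3 * k * q : ℕ) : ℝ) / 2 ^ ((t - 4) / 3) := by
    refine le_trans (prob_or fun s hs => ?_) (add_le_add_right z2 _)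
    rw [← r2]
    by_cases h : (ex2 σ n l1 l3 l4 s.2.1 s.2.2.1 s.2.2.2.1 s.2.2.2.2).run (Ok E (ext Λ s.1)) =
      (ex2 σ n l1 l3 l4 s.2.1 s.2.2.1 s.2.2.2.1 s.2.2.2.2).run (blind t (Ok E (ext Λ s.1)))
    · exact Or.inl (h ▸ hs)
    · exact Or.inr h
  rw [w1] at w4
  have w6 : ((5 * k * q : ℕ) : ℝ) / 2 ^ ((t - 4) / 3) + ((3 * k * q : ℕ) : ℝ) / 2 ^ ((t - 4) / 3) =
      8 * k * (q : ℝ) / 2 ^ ((t - 4) / 3) := by
    rw [← add_div]
    push_cast
    ring
  linarith

end Pool.Agent.W2helper36.PK
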